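import Pool.Agent.helper54.UG.Spec

/-!
# Project ug, module FFB: the family is not trivial on the quotient.
-/

set_option autoImplicit false

namespace Pool.Agent.UG

open Matrix Pool.Agent.H48SL

theorem FFB (hPRM : PRM_stmt) (hFFA : FFA_stmt) : FFB_stmt := by
  intro n H X hX
  obtain ⟨h1, -, -, -, -⟩ := hFFA (n + 1) H X hX
  obtain ⟨u, w, i, j, hne⟩ := hX.ne
  choose P hP using hX.poly
  set Q : MvPolynomial (Fin (n + 2)) ℚ :=
    MvPolynomial.X i * (∑ k, P j k * MvPolynomial.C (w k)) -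
      MvPolynomial.X j * (∑ k, P i k * MvPolynomial.C (w k)) with hQ
  have hev : ∀ v : Fin (n + 2) → ℚ,
      MvPolynomial.eval v Q = v i * (X v *ᵥ w) j - v j * (X v *ᵥ w) i := by
    intro v
    rw [hQ, map_sub, map_mul, map_mul, map_sum, map_sum, MvPolynomial.eval_X, MvPolynomial.eval_X]
    simp only [mulVec, dotProduct, map_mul, MvPolynomial.eval_C, hP]
  have hQ0 : Q ≠ 0 := by
    intro h0
    have h2 := hev u
    rw [h0, map_zero] at h2
    exact hne (sub_eq_zero.1 h2.symm)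
  obtain ⟨h, hh⟩ := hPRM n Q hQ0
  refine ⟨h⁻¹, ?_⟩
  intro hdn
  apply hh
  rw [hev]
  set v : Fin (n + 2) → ℚ := qg h *ᵥ e0 (n + 1) with hv
  have hF : Ff X h⁻¹ = qg h⁻¹ * X v * qg h := by
    unfold Ff
    rw [inv_inv]
  have h2 := h1 h⁻¹
  rw [kill_iff] at h2
  have h3 : ∀ (a : Fin (n + 1)) (b : Fin (n + 2)), Ff X h⁻¹ a.succ b = 0 := by
    intro a b
    refine Fin.cases (h2 a.succ) (fun b => ?_) b
    have h4 := congrFun (congrFun hdn a) b
    exact h4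
  have h5 : X v *ᵥ w = ((Ff X h⁻¹ *ᵥ (qg h⁻¹ *ᵥ w)) 0) • v := by
    have h6 : Ff X h⁻¹ *ᵥ (qg h⁻¹ *ᵥ w) = ((Ff X h⁻¹ *ᵥ (qg h⁻¹ *ᵥ w)) 0) • e0 (n + 1) := by
      ext a
      refine Fin.cases ?_ (fun a => ?_) a
      · simp [e0]
      · have h7 : (Ff X h⁻¹ *ᵥ (qg h⁻¹ *ᵥ w)) a.succ = 0 := by
          rw [mulVec, dotProduct]
          exact Finset.sum_eq_zero fun b _ => by rw [h3, zero_mul]
        rw [h7, Pi.smul_apply]
        simp [e0]
    have h8 : X v *ᵥ w = qg h *ᵥ (Ff X h⁻¹ *ᵥ (qg h⁻¹ *ᵥ w)) := by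
      have h9 : qg h * (qg h⁻¹ * X v * qg h) * qg h⁻¹ = X v := by
        rw [Matrix.mul_assoc (qg h⁻¹), ← Matrix.mul_assoc, qg_mul_inv, Matrix.one_mul,
          Matrix.mul_assoc, qg_mul_inv, Matrix.mul_one]
      rw [hF, mulVec_mulVec, mulVec_mulVec, h9]
    rw [h8, h6, mulVec_smul]
    rw [← hv]
    congr 1
    rw [← h6]
  rw [h5, Pi.smul_apply, Pi.smul_apply, smul_eq_mul, smul_eq_mul]
  ring

end Pool.Agent.UG
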