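import Pool.Agent.helper54.UG.Spec

/-!
# Project ug, module ISO: isolators in nilpotent groups.
-/

set_option autoImplicit false

namespace Pool.Agent.UG

open Matrix Pool.Agent.H48SL
open scoped commutatorElement

theorem ISO_left {Q : Type} [Group Q] {x y z : Q} (h : x * y = z * (y * x))
    (hz : ∀ q : Q, z * q = q * z) (k : ℕ) : x ^ k * y = z ^ k * (y * x ^ k) := by
  induction k with
  | zero => simp
  | succ k ih =>
    rw [pow_succ, mul_assoc, h, ← mul_assoc, ← hz, mul_assoc, ← mul_assoc (x ^ k), ih, pow_succ' z,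
      mul_assoc, mul_assoc, mul_assoc]

theorem ISO_comm {Q : Type} [Group Q] {x y : Q} (hz : ∀ q : Q, ⁅x, y⁆ * q = q * ⁅x, y⁆)
    (k l : ℕ) : ⁅x ^ k, y ^ l⁆ = ⁅x, y⁆ ^ (k * l) := by
  have h0 : x * y = ⁅x, y⁆ * (y * x) := by
    rw [commutatorElement_def]
    group
  have h1 := ISO_left h0 hz k
  set z := ⁅x, y⁆ with hzd
  have hzk : ∀ q : Q, z ^ k * q = q * z ^ k := by
    intro q
    exact (Commute.pow_left (show Commute z q from hz q) k).eq
  have h2 : y * x ^ k = (z ^ k)⁻¹ * (x ^ k * y) := by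
    rw [h1, inv_mul_cancel_left]
  have hzk' : ∀ q : Q, (z ^ k)⁻¹ * q = q * (z ^ k)⁻¹ := by
    intro q
    exact (Commute.inv_left (show Commute (z ^ k) q from hzk q)).eq
  have h3 := ISO_left h2 hzk' l
  rw [commutatorElement_def]
  have h4 : x ^ k * y ^ l = (z ^ k) ^ l * (y ^ l * x ^ k) := by
    rw [h3, inv_pow, mul_inv_cancel_left]
  rw [h4, ← pow_mul]
  group

theorem ISO_mulr {Q : Type} [Group Q] {x y z : Q} (hz : ∀ q : Q, ⁅x, z⁆ * q = q * ⁅x, z⁆) :
    ⁅x, y * z⁆ = ⁅x, y⁆ * ⁅x, z⁆ := by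
  have h1 : ⁅x, y⁆ * ⁅x, z⁆ = x * y * x⁻¹ * (⁅x, z⁆ * y⁻¹) := by
    rw [hz, commutatorElement_def x y]
    group
  rw [h1, commutatorElement_def, commutatorElement_def]
  group

theorem ISO_core (G : Type) [Group G] (A : Subgroup G) (S : Set G)
    (hS : ∀ s ∈ S, ∃ k : ℕ, 0 < k ∧ s ^ k ∈ A) (hgen : Subgroup.closure S = ⊤) (i : ℕ) :
    ∀ y ∈ (⊤ : Subgroup G).lowerCentralSeries i, ∃ k : ℕ, 0 < k ∧
      ∃ h ∈ A.lowerCentralSeries i, ∃ r ∈ (⊤ : Subgroup G).lowerCentralSeries (i + 1),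
        y ^ k = h * r := by
  induction i with
  | zero =>
    intro y _
    set N : Subgroup G := (⊤ : Subgroup G).lowerCentralSeries (0 + 1) with hN
    set π : G →* G ⧸ N := QuotientGroup.mk' N with hπ
    have hcen : ∀ x : G, ∀ q : G ⧸ N, π x * q = q * π x := by
      intro x q
      obtain ⟨g, rfl⟩ := QuotientGroup.mk'_surjective N q
      have h1 : ⁅x, g⁆ ∈ N := by
        rw [hN, Subgroup.lowerCentralSeries_succ]
        exact Subgroup.commutator_mem_commutator trivial trivial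
      have h2 : π ⁅x, g⁆ = 1 := (QuotientGroup.eq_one_iff _).2 h1
      rw [map_commutatorElement, commutatorElement_eq_one_iff_mul_comm] at h2
      exact h2
    have key : ∃ k : ℕ, 0 < k ∧ (π y) ^ k ∈ (A.lowerCentralSeries 0).map π := by
      have hy : y ∈ Subgroup.closure S := by rw [hgen]; trivial
      refine Subgroup.closure_induction
        (p := fun y _ => ∃ k : ℕ, 0 < k ∧ (π y) ^ k ∈ (A.lowerCentralSeries 0).map π)
        ?_ ?_ ?_ ?_ hy
      · intro s hs
        obtain ⟨k, hk, h⟩ := hS s hs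
        refine ⟨k, hk, ?_⟩
        rw [← map_pow]
        exact Subgroup.mem_map_of_mem π h
      · exact ⟨1, one_pos, by rw [map_one, one_pow]; exact Subgroup.one_mem _⟩
      · rintro x x' _ _ ⟨k, hk, h1⟩ ⟨l, hl, h2⟩
        refine ⟨k * l, Nat.mul_pos hk hl, ?_⟩
        have hc : Commute (π x) (π x') := hcen x _
        rw [map_mul, hc.mul_pow, pow_mul, mul_comm k l, pow_mul (π x')]
        exact Subgroup.mul_mem _ (Subgroup.pow_mem _ h1 l) (Subgroup.pow_mem _ h2 k)
      · rintro x _ ⟨k, hk, h1⟩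
        refine ⟨k, hk, ?_⟩
        rw [map_inv, inv_pow]
        exact Subgroup.inv_mem _ h1
    obtain ⟨k, hk, h, hh, h1⟩ := key
    rw [← map_pow] at h1
    refine ⟨k, hk, h, hh, h⁻¹ * y ^ k, ?_, by rw [mul_inv_cancel_left]⟩
    exact QuotientGroup.eq.1 h1
  | succ i ih =>
    intro y hy
    set N : Subgroup G := (⊤ : Subgroup G).lowerCentralSeries (i + 1 + 1) with hN
    set π : G →* G ⧸ N := QuotientGroup.mk' N with hπ
    have hcen : ∀ x ∈ (⊤ : Subgroup G).lowerCentralSeries (i + 1), ∀ q : G ⧸ N,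
        π x * q = q * π x := by
      intro x hx q
      obtain ⟨g, rfl⟩ := QuotientGroup.mk'_surjective N q
      have h1 : ⁅x, g⁆ ∈ N := by
        rw [hN, Subgroup.lowerCentralSeries_succ]
        exact Subgroup.commutator_mem_commutator hx trivial
      have h2 : π ⁅x, g⁆ = 1 := (QuotientGroup.eq_one_iff _).2 h1
      rw [map_commutatorElement, commutatorElement_eq_one_iff_mul_comm] at h2
      exact h2
    have key : ∃ k : ℕ, 0 < k ∧ (π y) ^ k ∈ (A.lowerCentralSeries (i + 1)).map π := by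
      have hy' := hy
      rw [Subgroup.mem_lowerCentralSeries_succ_iff] at hy'
      refine Subgroup.closure_induction
        (p := fun y _ => ∃ k : ℕ, 0 < k ∧ (π y) ^ k ∈ (A.lowerCentralSeries (i + 1)).map π)
        ?_ ?_ ?_ ?_ hy'
      · rintro _ ⟨a, ha, b, _, rfl⟩
        obtain ⟨k, hk, h, hh, r, hr, h1⟩ := ih a ha
        have hab : ∀ b : G, ⁅a, b⁆ ∈ (⊤ : Subgroup G).lowerCentralSeries (i + 1) := by
          intro b
          rw [Subgroup.lowerCentralSeries_succ]
          exact Subgroup.commutator_mem_commutator ha trivial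
        have hb : b ∈ Subgroup.closure S := by rw [hgen]; trivial
        refine Subgroup.closure_induction
          (p := fun b _ => ∃ k : ℕ, 0 < k ∧
            (π ⁅a, b⁆) ^ k ∈ (A.lowerCentralSeries (i + 1)).map π)
          ?_ ?_ ?_ ?_ hb
        · intro b hb
          obtain ⟨l, hl, h2⟩ := hS b hb
          refine ⟨k * l, Nat.mul_pos hk hl, ?_⟩
          have h4 := hcen _ (hab b)
          rw [map_commutatorElement] at h4 ⊢
          rw [← ISO_comm h4, ← map_pow, ← map_pow, h1, map_mul]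
          have h5 := hcen r hr
          have h6 : ⁅π h * π r, π (b ^ l)⁆ = ⁅π h, π (b ^ l)⁆ := by
            rw [commutatorElement_def, commutatorElement_def, _root_.mul_inv_rev]
            have h7 : π r * π (b ^ l) * (π r)⁻¹ = π (b ^ l) := by
              rw [h5, mul_inv_cancel_right]
            calc π h * π r * π (b ^ l) * ((π r)⁻¹ * (π h)⁻¹) * (π (b ^ l))⁻¹
                = π h * (π r * π (b ^ l) * (π r)⁻¹) * (π h)⁻¹ * (π (b ^ l))⁻¹ := by group
              _ = _ := by rw [h7]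
          rw [h6, ← map_commutatorElement]
          refine Subgroup.mem_map_of_mem π ?_
          rw [Subgroup.lowerCentralSeries_succ]
          exact Subgroup.commutator_mem_commutator hh h2
        · refine ⟨1, one_pos, ?_⟩
          rw [commutatorElement_one_right, map_one, one_pow]
          exact Subgroup.one_mem _
        · rintro b c _ _ ⟨k, hk, h1⟩ ⟨l, hl, h2⟩
          refine ⟨k * l, Nat.mul_pos hk hl, ?_⟩
          have hc : Commute (π ⁅a, b⁆) (π ⁅a, c⁆) := hcen _ (hab b) _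
          have h3 := hcen _ (hab c)
          rw [map_commutatorElement] at h3
          have h4 : π ⁅a, b * c⁆ = π ⁅a, b⁆ * π ⁅a, c⁆ := by
            rw [map_commutatorElement, map_commutatorElement, map_commutatorElement, map_mul]
            exact ISO_mulr h3
          rw [h4, hc.mul_pow, pow_mul, mul_comm k l, pow_mul (π ⁅a, c⁆)]
          exact Subgroup.mul_mem _ (Subgroup.pow_mem _ h1 l) (Subgroup.pow_mem _ h2 k)
        · rintro b _ ⟨k, hk, h1⟩
          refine ⟨k, hk, ?_⟩
          have h3 := hcen _ (hab b⁻¹)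
          rw [map_commutatorElement] at h3
          have h4 : π ⁅a, b⁆ * π ⁅a, b⁻¹⁆ = 1 := by
            have h5 := ISO_mulr (y := π b) h3
            rw [← map_mul, mul_inv_cancel, map_one, commutatorElement_one_right] at h5
            rw [map_commutatorElement, map_commutatorElement]
            exact h5.symm
          rw [eq_inv_of_mul_eq_one_right h4, inv_pow]
          exact Subgroup.inv_mem _ h1
      · exact ⟨1, one_pos, by rw [map_one, one_pow]; exact Subgroup.one_mem _⟩
      · rintro x x' hx _ ⟨k, hk, h1⟩ ⟨l, hl, h2⟩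
        refine ⟨k * l, Nat.mul_pos hk hl, ?_⟩
        have hc : Commute (π x) (π x') := hcen x hx _
        rw [map_mul, hc.mul_pow, pow_mul, mul_comm k l, pow_mul (π x')]
        exact Subgroup.mul_mem _ (Subgroup.pow_mem _ h1 l) (Subgroup.pow_mem _ h2 k)
      · rintro x _ ⟨k, hk, h1⟩
        refine ⟨k, hk, ?_⟩
        rw [map_inv, inv_pow]
        exact Subgroup.inv_mem _ h1
    obtain ⟨k, hk, h, hh, h1⟩ := key
    rw [← map_pow] at h1
    refine ⟨k, hk, h, hh, h⁻¹ * y ^ k, ?_, by rw [mul_inv_cancel_left]⟩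
    exact QuotientGroup.eq.1 h1

theorem ISO_two (G : Type) [Group G] (A : Subgroup G) (S : Set G)
    (hS : ∀ s ∈ S, ∃ k : ℕ, 0 < k ∧ s ^ k ∈ A) (hgen : Subgroup.closure S = ⊤) (i : ℕ) (z : G) :
    ∃ k : ℕ, 0 < k ∧ ∃ h ∈ A, h⁻¹ * z ^ k ∈ (⊤ : Subgroup G).lowerCentralSeries i := by
  induction i with
  | zero => exact ⟨1, one_pos, 1, Subgroup.one_mem _, trivial⟩
  | succ i ih =>
    obtain ⟨k, hk, h, hh, hr⟩ := ih
    obtain ⟨l, hl, h', hh', r', hr', h1⟩ := ISO_core G A S hS hgen i _ hr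
    set N : Subgroup G := (⊤ : Subgroup G).lowerCentralSeries (i + 1) with hN
    set π : G →* G ⧸ N := QuotientGroup.mk' N with hπ
    have hc : Commute (π h) (π (h⁻¹ * z ^ k)) := by
      have h3 : ⁅h⁻¹ * z ^ k, h⁆ ∈ N := by
        rw [hN, Subgroup.lowerCentralSeries_succ]
        exact Subgroup.commutator_mem_commutator hr trivial
      have h2 : π ⁅h⁻¹ * z ^ k, h⁆ = 1 := (QuotientGroup.eq_one_iff _).2 h3
      rw [map_commutatorElement, commutatorElement_eq_one_iff_mul_comm] at h2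
      exact h2.symm
    refine ⟨k * l, Nat.mul_pos hk hl, h ^ l * h', Subgroup.mul_mem _ (Subgroup.pow_mem _ hh l)
      (A.lowerCentralSeries_le_self i hh'), ?_⟩
    apply QuotientGroup.eq.1
    show π (h ^ l * h') = π (z ^ (k * l))
    have h5 : π r' = 1 := (QuotientGroup.eq_one_iff _).2 hr'
    have h4 : π (z ^ k) = π h * π (h⁻¹ * z ^ k) := by rw [← map_mul, mul_inv_cancel_left]
    have h6 : π (z ^ (k * l)) = π (h ^ l) * (π h' * π r') := by
      rw [pow_mul, map_pow π (z ^ k) l, h4, hc.mul_pow, ← map_pow, ← map_pow, h1, map_mul π h' r']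
    rw [h6, h5, mul_one, map_mul]

theorem ISO_gen (G : Type) [Group G] (K : Subgroup G) (x y : K)
    (hK : K = Subgroup.closure {(x : G), (y : G)}) :
    Subgroup.closure ({x, y} : Set K) = ⊤ := by
  rw [eq_top_iff]
  intro z _
  have h1 : ((Subgroup.closure ({x, y} : Set K)).map K.subtype) =
      Subgroup.closure {(x : G), (y : G)} := by
    rw [MonoidHom.map_closure, Set.image_pair]
    rfl
  have h2 : (z : G) ∈ (Subgroup.closure ({x, y} : Set K)).map K.subtype := by
    rw [h1, ← hK]; exact z.2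
  obtain ⟨w, hw, hwz⟩ := h2
  have h3 : w = z := Subtype.ext hwz
  rw [← h3]
  exact hw

theorem ISO_three (G : Type) [Group G] (hG : Group.IsNilpotent G) (A : Subgroup G)
    (K : Subgroup G) (x y : K) (hK : K = Subgroup.closure {(x : G), (y : G)}) (k l : ℕ)
    (hk : 0 < k) (hl : 0 < l) (hx : (x : G) ^ k ∈ A) (hy : (y : G) ^ l ∈ A) :
    ∃ m : ℕ, 0 < m ∧ ((x : G) * (y : G)) ^ m ∈ A := by
  have hnil : Group.IsNilpotent K := Subgroup.isNilpotent K
  obtain ⟨n, hn⟩ := Subgroup.nilpotent_iff_lowerCentralSeries.1 hnil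
  have hS : ∀ s ∈ ({x, y} : Set K), ∃ k : ℕ, 0 < k ∧ s ^ k ∈ A.subgroupOf K := by
    intro s hs
    rcases hs with hs | hs
    · refine ⟨k, hk, ?_⟩
      rw [Subgroup.mem_subgroupOf, Subgroup.coe_pow, hs]
      exact hx
    · refine ⟨l, hl, ?_⟩
      rw [Subgroup.mem_subgroupOf, Subgroup.coe_pow, Set.mem_singleton_iff.1 hs]
      exact hy
  obtain ⟨m, hm, h, hh, hr⟩ := ISO_two K (A.subgroupOf K) {x, y} hS (ISO_gen G K x y hK) n (x * y)
  rw [hn, Subgroup.mem_bot, inv_mul_eq_one] at hr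
  refine ⟨m, hm, ?_⟩
  rw [Subgroup.mem_subgroupOf, hr, Subgroup.coe_pow, Subgroup.coe_mul] at hh
  exact hh

theorem ISO : ISO_stmt := by
  intro G _ hG A x y k l hk hl hx hy
  exact ISO_three G hG A (Subgroup.closure {x, y})
    ⟨x, Subgroup.subset_closure (Set.mem_insert _ _)⟩
    ⟨y, Subgroup.subset_closure (Set.mem_insert_of_mem _ rfl)⟩ rfl k l hk hl hx hy

end Pool.Agent.UG
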